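import Mathlib
import Pool.Agent.L5helper98.ID.Defs

set_option autoImplicit false

open MeasureTheory ProbabilityTheory Filter Topology Set
open scoped ENNReal BoundedContinuousFunction

namespace Pool.Agent.L5helper75.ID

open Pool.Agent.L5helper98.ID

/-- the lower bound of an integral over a larger set by a constant on an interval -/
lemma low {f : ℝ → ℝ≥0∞} {E : ℝ≥0∞} {a b : ℝ} (hs : Ioo a b ⊆ D) (hf : ∀ x ∈ Ioo a b, E ≤ f x) :
    E * ENNReal.ofReal (b - a) ≤ ∫⁻ x in D, f x := by
  calc E * ENNReal.ofReal (b - a) = ∫⁻ _ in Ioo a b, E := by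
        rw [setLIntegral_const, Real.volume_Ioo]
    _ ≤ ∫⁻ x in Ioo a b, f x := setLIntegral_mono' measurableSet_Ioo hf
    _ ≤ ∫⁻ x in D, f x := lintegral_mono_set hs

theorem LO_holds : St_LO := by
  intro l c κ hl hl0 hκ hc hcκ
  have hκ0 : 0 < κ := by linarith
  set d : ℝ := 1 / Real.sqrt κ with hd
  have hs0 : 0 < Real.sqrt κ := Real.sqrt_pos.2 hκ0
  have hs1 : 1 ≤ Real.sqrt κ := by
    rw [Real.one_le_sqrt]; exact hκ
  have hd0 : 0 < d := by positivity
  have hd1 : d ≤ 1 := by
    rw [hd, div_le_one hs0]; exact hs1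
  have hd2 : d ^ 2 = 1 / κ := by
    rw [hd, div_pow, Real.sq_sqrt hκ0.le, one_pow]
  have hπ := Real.pi_gt_three
  set F : ℝ → ℝ := fun t => l t + c * Real.cos t with hF
  set E : ℝ≥0∞ := ENNReal.ofReal (Real.exp (3 * c - 3)) with hE
  have hcd : c * d ^ 2 ≤ 1 := by
    rw [hd2, mul_one_div, div_le_one hκ0]
    exact hcκ
  have hpt : ∀ x y z : ℝ, |y - x| < d → |z - x| < d → E ≤ ee F x y * ee F x z * ee F y z := by
    intro x y z hy hz
    unfold ee
    rw [← ENNReal.ofReal_mul (Real.exp_pos _).le, ← ENNReal.ofReal_mul (by positivity),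
      ← Real.exp_add, ← Real.exp_add]
    refine ENNReal.ofReal_le_ofReal (Real.exp_le_exp.2 ?_)
    rw [hF]
    have h1 := Real.one_sub_sq_div_two_le_cos (x := x - y)
    have h2 := Real.one_sub_sq_div_two_le_cos (x := x - z)
    have h3 := Real.one_sub_sq_div_two_le_cos (x := y - z)
    have e1 : (x - y) ^ 2 ≤ d ^ 2 := by
      rw [abs_lt] at hy
      nlinarith [hy.1, hy.2]
    have e2 : (x - z) ^ 2 ≤ d ^ 2 := by
      rw [abs_lt] at hz
      nlinarith [hz.1, hz.2]
    have e3 : (y - z) ^ 2 ≤ 4 * d ^ 2 := by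
      rw [abs_lt] at hy hz
      nlinarith [hy.1, hy.2, hz.1, hz.2]
    have h4 : 3 - 3 * d ^ 2 ≤ Real.cos (x - y) + Real.cos (x - z) + Real.cos (y - z) := by
      linarith
    have h5 := mul_le_mul_of_nonneg_left h4 hc
    have := hl0 (x - y)
    have := hl0 (x - z)
    have := hl0 (y - z)
    simp only
    nlinarith
  have hz : ∀ x ∈ Ioo (-Real.pi + d) (Real.pi - d), ∀ y ∈ Ioo (x - d) (x + d),
      E * ENNReal.ofReal (2 * d) ≤ ∫⁻ z in D, ee F x y * ee F x z * ee F y z := by
    intro x hx y hy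
    have h1 := low (f := fun z => ee F x y * ee F x z * ee F y z) (E := E) (a := x - d) (b := x + d)
      (by
        intro z hz
        exact ⟨by linarith [hx.1, hz.1], by linarith [hx.2, hz.2]⟩)
      (by
        intro z hz
        refine hpt x y z ?_ ?_
        · rw [abs_lt]; exact ⟨by linarith [hy.1], by linarith [hy.2]⟩
        · rw [abs_lt]; exact ⟨by linarith [hz.1], by linarith [hz.2]⟩)
    have h2 : x + d - (x - d) = 2 * d := by ring
    rwa [h2] at h1
  have hy : ∀ x ∈ Ioo (-Real.pi + d) (Real.pi - d),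
      E * ENNReal.ofReal (2 * d) * ENNReal.ofReal (2 * d) ≤
        ∫⁻ y in D, ∫⁻ z in D, ee F x y * ee F x z * ee F y z := by
    intro x hx
    have h1 := low (f := fun y => ∫⁻ z in D, ee F x y * ee F x z * ee F y z)
      (E := E * ENNReal.ofReal (2 * d)) (a := x - d) (b := x + d)
      (by
        intro z hz
        exact ⟨by linarith [hx.1, hz.1], by linarith [hx.2, hz.2]⟩)
      (fun y hy => hz x hx y hy)
    have h2 : x + d - (x - d) = 2 * d := by ring
    rwa [h2] at h1
  have hx := low (f := fun x => ∫⁻ y in D, ∫⁻ z in D, ee F x y * ee F x z * ee F y z)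
      (E := E * ENNReal.ofReal (2 * d) * ENNReal.ofReal (2 * d)) (a := -Real.pi + d)
      (b := Real.pi - d)
      (by
        intro z hz
        exact ⟨by linarith [hz.1], by linarith [hz.2]⟩)
      (fun x hx => hy x hx)
  refine le_trans ?_ hx
  rw [hE, ← ENNReal.ofReal_mul (Real.exp_pos _).le, ← ENNReal.ofReal_mul (by positivity),
    ← ENNReal.ofReal_mul (by positivity)]
  refine ENNReal.ofReal_le_ofReal ?_
  have h1 : Real.exp (3 * c - 3) * (2 * d) * (2 * d) * (Real.pi - d - (-Real.pi + d)) =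
      Real.exp (3 * c - 3) * (4 * (1 / κ)) * (2 * Real.pi - 2 * d) := by
    rw [← hd2]; ring
  rw [h1]
  have h2 : 4 * Real.pi * Real.exp (3 * c - 3) / κ =
      Real.exp (3 * c - 3) * (4 * (1 / κ)) * Real.pi := by
    field_simp
  rw [h2]
  refine mul_le_mul_of_nonneg_left (by linarith) (by positivity)

end Pool.Agent.L5helper75.ID
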